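import Mathlib

set_option autoImplicit false

namespace Pool.Agent.Results.MP_4e32c3_nt.Unbounded

/-- The sequence is unbounded (a value at least `k+1` occurs before index `2^(k+1)`), and every
value that occurs does so infinitely often. -/
theorem result : ∀ a : ℕ → ℕ, a 1 = 1 → (∀ n, 1 ≤ n → a (2 * n) = a n) →
    (∀ n, 1 ≤ n → a (2 * n + 1) =
      if a n < a (2 * n - 1) then a (2 * n - 1) - a n else a (2 * n - 1) + a n) →
    (∀ k : ℕ, ∃ n, 1 ≤ n ∧ n < 2 ^ (k + 1) ∧ k + 1 ≤ a n) ∧
      (∀ n, 1 ≤ n → {m | 1 ≤ m ∧ a m = a n}.Infinite) := by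
  intro a h1 he ho
  have hpos : ∀ n, 1 ≤ n → 1 ≤ a n := by
    intro n
    induction n using Nat.strong_induction_on with
    | _ n ih =>
      intro hn
      rcases Nat.even_or_odd' n with ⟨k, rfl | rfl⟩
      · rw [he k (by omega)]; exact ih k (by omega) (by omega)
      · rcases Nat.eq_zero_or_pos k with rfl | hk
        · simp [h1]
        · rw [ho k hk]
          have := ih k (by omega) hk
          split_ifs <;> omega
  constructor
  · intro k
    induction k with
    | zero => exact ⟨1, le_rfl, by norm_num, by omega⟩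
    | succ k ih =>
      obtain ⟨n, hn, hlt, hv⟩ := ih
      have e : 2 ^ (k + 1 + 1) = 2 * 2 ^ (k + 1) := by ring
      by_cases h : a n < a (2 * n - 1)
      · exact ⟨2 * n - 1, by omega, by omega, by omega⟩
      · refine ⟨2 * n + 1, by omega, by omega, ?_⟩
        rw [ho n hn, if_neg h]
        have := hpos (2 * n - 1) (by omega)
        omega
  · intro n hn
    have hp : ∀ j, a (2 ^ j * n) = a n := by
      intro j
      induction j with
      | zero => simp
      | succ j ih =>
        have : 2 ^ (j + 1) * n = 2 * (2 ^ j * n) := by ring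
        rw [this, he _ (Nat.mul_pos (by positivity) hn), ih]
    apply Set.infinite_of_forall_exists_gt
    intro N
    refine ⟨2 ^ N * n, ⟨Nat.mul_pos (by positivity) hn, hp N⟩, ?_⟩
    have : N < 2 ^ N := Nat.lt_two_pow_self
    nlinarith

end Pool.Agent.Results.MP_4e32c3_nt.Unbounded
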